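import Pool.Agent.Y39.LiouGroup

set_option autoImplicit false

/-!
A finitely generated non-amenable group with a faithful action on a countable set and one
non-degenerate probability measure `μ` for which the induced actions on the `n`-element subsets are
`μ`-Liouville for all `n`.
-/

namespace Pool.Agent.Results.MP_2579e4_al.HighlyTransitive

/-- The transition probability `p_μ(y, z)`: the sum of `μ g` over the `g` with `g y = z`. -/
noncomputable def transProb {G Y : Type} [Group G] [MulAction G Y] (μ : PMF G) (y z : Y) : ℝ :=
  ∑' g : {g : G // g • y = z}, (μ g).toReal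

/-- The action of `G` on `Y` is `μ`-Liouville: every bounded `μ`-harmonic function is constant. -/
def IsLiouvilleFor {G : Type} [Group G] (μ : PMF G) (Y : Type) [MulAction G Y] : Prop :=
  ∀ f : Y → ℝ, (∃ C : ℝ, ∀ y, |f y| ≤ C) → (∀ y, f y = ∑' z, f z * transProb μ y z) →
    ∀ y z, f y = f z

/-- `G` has a left invariant finitely additive probability measure on all its subsets. -/
def IsAmenable (G : Type) [Group G] : Prop :=
  ∃ m : Set G → ℝ, (∀ A, 0 ≤ m A) ∧ m Set.univ = 1 ∧
    (∀ A B, Disjoint A B → m (A ∪ B) = m A + m B) ∧ ∀ (g : G) A, m ((fun x => g * x) '' A) = m A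

theorem transProb_eq {G Y : Type} [Group G] [MulAction G Y] (μ : PMF G) (y z : Y) :
    transProb μ y z = ((μ.map (fun g => g • y)) z).toReal := by
  classical
  rw [PMF.map_apply, ENNReal.tsum_toReal_eq]
  · unfold transProb
    rw [← tsum_subtype_eq_of_support_subset (s := {g : G | g • y = z})]
    · refine tsum_congr fun g => ?_
      rw [if_pos g.2.symm]
    · intro g hg
      by_contra h
      apply hg
      have h2 : ¬ z = g • y := fun e => h e.symm
      simp [h2]
  · intro g
    split_ifs
    · exact μ.apply_ne_top g
    · exact ENNReal.zero_ne_top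

/-- There are a finitely generated, non-amenable group `G` and a faithful action of `G` on an
infinite set `X`, together with one probability measure `μ` on `G` whose support generates `G` as
a semigroup, such that for every `n` the action of `G` on the `n`-element subsets of `X` is
`μ`-Liouville. -/
theorem result :
    ∃ (G : Type) (_ : Group G) (X : Type) (_ : DecidableEq X) (_ : MulAction G X),
      Group.FG G ∧ Countable G ∧ Infinite X ∧ FaithfulSMul G X ∧ ¬ IsAmenable G ∧
      ∃ μ : PMF G, Subsemigroup.closure μ.support = ⊤ ∧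
        ∀ n : ℕ, IsLiouvilleFor μ (Set.powersetCard X n) := by
  refine ⟨Y39.Liou.EE, inferInstance, Y39.Liou.FF, inferInstance, inferInstance,
    Y39.Liou.EE_FG, inferInstance, inferInstance, inferInstance, ?_, ?_⟩
  · rintro ⟨m, h0, h1, hadd, hinv⟩
    refine Helper463.BC.paradox Y39.Liou.qq
      (fun i => ⟨Y39.Liou.LL (FreeGroup.of i), Y39.Liou.LL_mem _⟩)
      (fun i => Y39.Liou.qq_LL _) m h1 h0 hadd (fun i S => ?_)
    rw [hinv, sub_self, abs_zero]
    norm_num
  · obtain ⟨μ, hμ, h⟩ := Y39.Liou.main Y39.Liou.EE Y39.Liou.FF Y39.Liou.EE_ht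
    refine ⟨μ, ?_, fun n f hf hharm => h n f hf (fun y => ?_)⟩
    · rw [eq_top_iff]
      intro g _
      exact Subsemigroup.subset_closure ((PMF.mem_support_iff _ _).2 (hμ g))
    · rw [hharm y]
      exact tsum_congr fun z => by rw [transProb_eq]

end Pool.Agent.Results.MP_2579e4_al.HighlyTransitive
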